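import Mathlib

set_option autoImplicit false

/-!
# Free group factors: the combinatorial core for two generators

`x l = a u a^2 u a^3 u ... a^l u` in a free group containing the letters `a`, `u`.
The restricted alternating words in the `x l` are pairwise distinct.
-/

namespace Pool.Agent.H722.FG

open FreeGroup List

variable {X : Type*} [DecidableEq X]

/-- the head letter of the reduced word -/
def hd (g : FreeGroup X) : Option (X × Bool) := g.toWord.head?

lemma toWord_cons (l : X × Bool) (g : FreeGroup X) (h : hd g ≠ some (l.1, !l.2)) :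
    (FreeGroup.mk [l] * g).toWord = l :: g.toWord := by
  have hg : g = FreeGroup.mk g.toWord := (FreeGroup.mk_toWord).symm
  conv_lhs => rw [hg]
  rw [FreeGroup.mul_mk, FreeGroup.toWord_mk]
  simp only [List.singleton_append]
  rw [FreeGroup.reduce.cons, FreeGroup.reduce_toWord]
  unfold hd at h
  cases hw : g.toWord with
  | nil => simp
  | cons m t =>
    rw [hw] at h
    simp only [List.head?_cons, ne_eq, Option.some.injEq] at h
    simp only
    rw [if_neg]
    rintro ⟨h1, h2⟩
    apply h
    ext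
    · exact h1.symm
    · simp [h2]

lemma toWord_of_mul (a : X) (g : FreeGroup X) (h : hd g ≠ some (a, false)) :
    (of a * g).toWord = (a, true) :: g.toWord :=
  toWord_cons (a, true) g h

lemma toWord_inv_mul (a : X) (g : FreeGroup X) (h : hd g ≠ some (a, true)) :
    ((of a)⁻¹ * g).toWord = (a, false) :: g.toWord :=
  toWord_cons (a, false) g h

lemma hd_of_mul (a : X) (g : FreeGroup X) (h : hd g ≠ some (a, false)) :
    hd (of a * g) = some (a, true) := by
  unfold hd; rw [toWord_of_mul a g h]; rfl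

lemma hd_inv_mul (a : X) (g : FreeGroup X) (h : hd g ≠ some (a, true)) :
    hd ((of a)⁻¹ * g) = some (a, false) := by
  unfold hd; rw [toWord_inv_mul a g h]; rfl

lemma toWord_pow_mul (a : X) (n : ℕ) (g : FreeGroup X) (h : hd g ≠ some (a, false)) :
    ((of a) ^ n * g).toWord = List.replicate n (a, true) ++ g.toWord := by
  induction n with
  | zero => simp
  | succ n ih =>
    rw [pow_succ', mul_assoc, toWord_of_mul, ih]
    · rfl
    · unfold hd
      rw [ih]
      cases n with
      | zero => simpa [hd] using h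
      | succ n => simp [List.replicate_succ]

lemma toWord_invpow_mul (a : X) (n : ℕ) (g : FreeGroup X) (h : hd g ≠ some (a, true)) :
    (((of a) ^ n)⁻¹ * g).toWord = List.replicate n (a, false) ++ g.toWord := by
  rw [← inv_pow]
  induction n with
  | zero => simp
  | succ n ih =>
    rw [pow_succ', mul_assoc, toWord_inv_mul, ih]
    · rfl
    · unfold hd
      rw [ih]
      cases n with
      | zero => simpa [hd] using h
      | succ n => simp [List.replicate_succ]

lemma hd_pow_mul (a : X) (n : ℕ) (hn : n ≠ 0) (g : FreeGroup X) (h : hd g ≠ some (a, false)) :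
    hd ((of a) ^ n * g) = some (a, true) := by
  unfold hd
  rw [toWord_pow_mul a n g h]
  cases n with
  | zero => exact absurd rfl hn
  | succ n => simp [List.replicate_succ]

lemma hd_invpow_mul (a : X) (n : ℕ) (hn : n ≠ 0) (g : FreeGroup X) (h : hd g ≠ some (a, true)) :
    hd (((of a) ^ n)⁻¹ * g) = some (a, false) := by
  unfold hd
  rw [toWord_invpow_mul a n g h]
  cases n with
  | zero => exact absurd rfl hn
  | succ n => simp [List.replicate_succ]

lemma hd_one : hd (1 : FreeGroup X) = none := by simp [hd]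

section core

variable (a u : X)

/-- `x l = a u a^2 u ... a^l u` -/
def x : ℕ → FreeGroup X
  | 0 => 1
  | l + 1 => x l * (of a) ^ (l + 1) * of u

omit [DecidableEq X] in
lemma x_succ (l : ℕ) : x a u (l + 1) = x a u l * (of a) ^ (l + 1) * of u := rfl

/-- type I -/
def TI (q : ℕ) (t : FreeGroup X) : Prop :=
  ∃ t', t = (of a) ^ (q + 1) * (of u * t') ∧ hd t' ≠ some (u, false)

/-- type II -/
def TII (q : ℕ) (t : FreeGroup X) : Prop :=
  ∃ t', t = (of u)⁻¹ * (((of a) ^ q)⁻¹ * t') ∧ 1 ≤ q ∧ (t' = 1 ∨ hd t' = some (u, false))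

variable {a u}

lemma TI_toWord (hau : a ≠ u) {q : ℕ} {t t' : FreeGroup X}
    (h : t = (of a) ^ (q + 1) * (of u * t')) (h' : hd t' ≠ some (u, false)) :
    t.toWord = List.replicate (q + 1) (a, true) ++ (u, true) :: t'.toWord := by
  rw [h, toWord_pow_mul, toWord_of_mul u t' h']
  rw [hd_of_mul u t' h']
  simp [Ne.symm hau]

lemma nota_of {t' : FreeGroup X} (hau : a ≠ u) (h : t' = 1 ∨ hd t' = some (u, false)) (b : Bool) :
    hd t' ≠ some (a, b) := by
  rcases h with h | h
  · rw [h, hd_one]; simp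
  · rw [h]; simp [Ne.symm hau]

lemma TII_toWord (hau : a ≠ u) {q : ℕ} {t t' : FreeGroup X}
    (h : t = (of u)⁻¹ * (((of a) ^ q)⁻¹ * t')) (hq : 1 ≤ q)
    (h' : t' = 1 ∨ hd t' = some (u, false)) :
    t.toWord = (u, false) :: (List.replicate q (a, false) ++ t'.toWord) := by
  have h1 := nota_of hau h' true
  rw [h, toWord_inv_mul, toWord_invpow_mul a q t' h1]
  rw [hd_invpow_mul a q (by omega) t' h1]
  simp [hau]

lemma TI_hd (hau : a ≠ u) {q : ℕ} {t : FreeGroup X} (h : TI a u q t) : hd t = some (a, true) := by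
  obtain ⟨t', h1, h2⟩ := h
  unfold hd
  rw [TI_toWord hau h1 h2]
  simp [List.replicate_succ]

lemma TII_hd (hau : a ≠ u) {q : ℕ} {t : FreeGroup X} (h : TII a u q t) :
    hd t = some (u, false) := by
  obtain ⟨t', h1, h2, h3⟩ := h
  unfold hd
  rw [TII_toWord hau h1 h2 h3]
  simp

/-- number of leading letters equal to `m` -/
lemma rep_inj {α : Type*} {m : α} {i j : ℕ} {s t : List α}
    (hs : s.head? ≠ some m) (ht : t.head? ≠ some m)
    (h : List.replicate i m ++ s = List.replicate j m ++ t) : i = j ∧ s = t := by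
  induction i generalizing j with
  | zero =>
    cases j with
    | zero => simpa using h
    | succ j =>
      exfalso
      simp only [List.replicate_zero, List.nil_append, List.replicate_succ, List.cons_append] at h
      rw [h] at hs
      simp at hs
  | succ i ih =>
    cases j with
    | zero =>
      exfalso
      simp only [List.replicate_zero, List.nil_append, List.replicate_succ, List.cons_append] at h
      rw [← h] at ht
      simp at ht
    | succ j =>
      simp only [List.replicate_succ, List.cons_append, List.cons.injEq, true_and] at h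
      obtain ⟨h1, h2⟩ := ih h
      exact ⟨by rw [h1], h2⟩

/-- `t` determines `q` -/
lemma T_inj (hau : a ≠ u) {q r : ℕ} {t : FreeGroup X} (h : TI a u q t ∨ TII a u q t)
    (h' : TI a u r t ∨ TII a u r t) : q = r := by
  rcases h with h | h <;> rcases h' with h' | h'
  · obtain ⟨t1, h1, h2⟩ := h
    obtain ⟨t2, h3, h4⟩ := h'
    have e1 := TI_toWord hau h1 h2
    have e2 := TI_toWord hau h3 h4
    rw [e1] at e2
    have := rep_inj (m := (a, true)) (by simp [Ne.symm hau])
      (by simp [Ne.symm hau]) e2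
    omega
  · have e1 := TI_hd hau h
    have e2 := TII_hd hau h'
    rw [e1] at e2
    simp [hau] at e2
  · have e1 := TII_hd hau h
    have e2 := TI_hd hau h'
    rw [e1] at e2
    simp [Ne.symm hau] at e2
  · obtain ⟨t1, h1, h2, h5⟩ := h
    obtain ⟨t2, h3, h4, h6⟩ := h'
    have e1 := TII_toWord hau h1 h2 h5
    have e2 := TII_toWord hau h3 h4 h6
    rw [e1] at e2
    simp only [List.cons.injEq, true_and] at e2
    exact (rep_inj (nota_of hau h5 false) (nota_of hau h6 false) e2).1

/-- a power times `t''` (with `t'' = 1` or `t''` starting with `u⁻¹`) -/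
lemma zpow_cases (a : X) (i j : ℕ) (hij : i ≠ j) (t : FreeGroup X) :
    (∃ n : ℕ, n ≠ 0 ∧ (of a) ^ i * (((of a) ^ j)⁻¹ * t) = (of a) ^ n * t ∧ i = j + n) ∨
    (∃ n : ℕ, n ≠ 0 ∧ (of a) ^ i * (((of a) ^ j)⁻¹ * t) = ((of a) ^ n)⁻¹ * t ∧ j = i + n) := by
  rcases Nat.lt_or_ge i j with h | h
  · right
    refine ⟨j - i, by omega, ?_, by omega⟩
    have : j = (j - i) + i := by omega
    conv_lhs => rw [this]
    rw [pow_add]
    group
  · left
    refine ⟨i - j, by omega, ?_, by omega⟩
    have : i = (i - j) + j := by omega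
    conv_lhs => rw [this]
    rw [pow_add]
    group

/-- `Y j = r_j ... r_p t` for `j ≤ p`; its head is a letter `a^±` -/
lemma hdY (hau : a ≠ u) {p q : ℕ} {t : FreeGroup X} (hpq : p ≠ q) (hp : 1 ≤ p)
    (h : TI a u q t ∨ TII a u q t) :
    ∃ b, hd ((of a) ^ p * (of u * t)) = some (a, b) := by
  rcases h with h | h
  · refine ⟨true, ?_⟩
    apply hd_pow_mul a p (by omega)
    rw [hd_of_mul]
    · simp [Ne.symm hau]
    · rw [TI_hd hau h]; simp [hau]
  · obtain ⟨t', h1, h2, h3⟩ := h
    have e : (of a) ^ p * (of u * t) = (of a) ^ p * (((of a) ^ q)⁻¹ * t') := by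
      rw [h1]; group
    rw [e]
    rcases zpow_cases a p q hpq t' with ⟨n, hn, e', -⟩ | ⟨n, hn, e', -⟩
    · exact ⟨true, by rw [e']; exact hd_pow_mul a n hn t' (nota_of hau h3 false)⟩
    · exact ⟨false, by rw [e']; exact hd_invpow_mul a n hn t' (nota_of hau h3 true)⟩

/-- `x_j⁻¹ x_p t` for `j < p` starts with `a^±` -/
lemma hdYall (hau : a ≠ u) {p q : ℕ} {t : FreeGroup X} (hpq : p ≠ q) (hp : 1 ≤ p)
    (h : TI a u q t ∨ TII a u q t) (k : ℕ) (hk : k < p) :
    ∃ b, hd ((x a u (p - 1 - k))⁻¹ * (x a u p * t)) = some (a, b) := by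
  induction k with
  | zero =>
    obtain ⟨p', rfl⟩ : ∃ p', p = p' + 1 := ⟨p - 1, by omega⟩
    have e : (x a u (p' + 1 - 1 - 0))⁻¹ * (x a u (p' + 1) * t) =
        (of a) ^ (p' + 1) * (of u * t) := by
      rw [x_succ, Nat.add_sub_cancel, Nat.sub_zero]
      group
    rw [e]
    exact hdY hau hpq hp h
  | succ k ih =>
    obtain ⟨b, hb⟩ := ih (by omega)
    obtain ⟨m, hm⟩ : ∃ m, p - 1 - k = m + 1 := ⟨p - 1 - k - 1, by omega⟩
    have hm' : p - 1 - (k + 1) = m := by omega
    rw [hm] at hb
    rw [hm']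
    refine ⟨true, ?_⟩
    have e : (x a u m)⁻¹ * (x a u p * t) =
        (of a) ^ (m + 1) * (of u * ((x a u (m + 1))⁻¹ * (x a u p * t))) := by
      rw [x_succ]; group
    rw [e]
    apply hd_pow_mul a (m + 1) (by omega)
    rw [hd_of_mul]
    · simp [Ne.symm hau]
    · rw [hb]; simp [hau]

/-- `V j = r_j⁻¹ ... r_{p+1}⁻¹ t` starts with `u⁻¹` -/
lemma hdV (hau : a ≠ u) {p q : ℕ} {t : FreeGroup X} (hpq : p ≠ q)
    (h : TI a u q t ∨ TII a u q t) (k : ℕ) :
    hd ((x a u (p + 1 + k))⁻¹ * (x a u p * t)) = some (u, false) := by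
  induction k with
  | zero =>
    rw [Nat.add_zero]
    have e : (x a u (p + 1))⁻¹ * (x a u p * t) = (of u)⁻¹ * (((of a) ^ (p + 1))⁻¹ * t) := by
      rw [x_succ]; group
    rw [e]
    apply hd_inv_mul
    rcases h with h | h
    · obtain ⟨t', h1, h2⟩ := h
      have e2 : ((of a) ^ (p + 1))⁻¹ * t =
          (of a) ^ q * (((of a) ^ p)⁻¹ * (of u * t')) := by
        rw [h1, pow_succ, pow_succ]; group
      rw [e2]
      have hu : hd (of u * t') = some (u, true) := hd_of_mul u t' h2
      rcases zpow_cases a q p (Ne.symm hpq) (of u * t') with ⟨n, hn, e', -⟩ | ⟨n, hn, e', -⟩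
      · rw [e', hd_pow_mul a n hn]
        · simp [hau]
        · rw [hu]; simp [Ne.symm hau]
      · rw [e', hd_invpow_mul a n hn]
        · simp
        · rw [hu]; simp [Ne.symm hau]
    · rw [hd_invpow_mul a (p + 1) (by omega)]
      · simp
      · rw [TII_hd hau h]; simp
  | succ k ih =>
    have e : (x a u (p + 1 + (k + 1)))⁻¹ * (x a u p * t) =
        (of u)⁻¹ * (((of a) ^ (p + 1 + k + 1))⁻¹ * ((x a u (p + 1 + k))⁻¹ * (x a u p * t))) := by
      rw [← Nat.add_assoc, x_succ]; group
    rw [e]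
    apply hd_inv_mul
    rw [hd_invpow_mul a _ (by omega)]
    · simp
    · rw [ih]; simp

/-- base case of the type -/
lemma T_base (hau : a ≠ u) {q : ℕ} (hq : 1 ≤ q) : TII a u q (x a u q)⁻¹ := by
  induction q with
  | zero => omega
  | succ q ih =>
    refine ⟨(x a u q)⁻¹, by rw [x_succ]; group, by omega, ?_⟩
    rcases Nat.eq_zero_or_pos q with h | h
    · left; rw [h]; simp [x]
    · right; exact TII_hd hau (ih h)

/-- step of the type -/
lemma T_step (hau : a ≠ u) {p q r : ℕ} {t : FreeGroup X} (hpq : p ≠ q) (hp : 1 ≤ p)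
    (h : TI a u q t ∨ TII a u q t) (hr : 1 ≤ r) (hpr : p + 2 ≤ r ∨ r + 2 ≤ p) :
    TI a u r ((x a u r)⁻¹ * (x a u p * t)) ∨ TII a u r ((x a u r)⁻¹ * (x a u p * t)) := by
  rcases hpr with hpr | hpr
  · right
    obtain ⟨k, rfl⟩ : ∃ k, r = p + 1 + k + 1 := ⟨r - p - 2, by omega⟩
    refine ⟨(x a u (p + 1 + k))⁻¹ * (x a u p * t), by rw [x_succ]; group, by omega, ?_⟩
    exact Or.inr (hdV hau hpq h k)
  · left
    refine ⟨(x a u (r + 1))⁻¹ * (x a u p * t), by rw [x_succ]; group, ?_⟩
    obtain ⟨b, hb⟩ := hdYall hau hpq hp h (p - 1 - (r + 1)) (by omega)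
    have : p - 1 - (p - 1 - (r + 1)) = r + 1 := by omega
    rw [this] at hb
    rw [hb]; simp [hau]

/-- comparison of two outcomes -/
lemma T_lt (hau : a ≠ u) {p q r s : ℕ} {t t' : FreeGroup X} (hpq : p ≠ q) (hrs : r ≠ s)
    (hp : 1 ≤ p) (h : TI a u q t ∨ TII a u q t) (h' : TI a u s t' ∨ TII a u s t')
    (e : x a u p * t = x a u r * t') : ¬ p < r := by
  intro hlt
  have et : t = (x a u p)⁻¹ * (x a u r * t') := by rw [← e]; group
  have et2 : t = (of a) ^ (p + 1) * (of u * ((x a u (p + 1))⁻¹ * (x a u r * t'))) := by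
    rw [et, x_succ]; group
  by_cases hr : p + 1 < r
  · -- type I with `q = p`
    obtain ⟨b, hb⟩ := hdYall hau hrs (by omega) h' (r - 1 - (p + 1)) (by omega)
    have e1 : r - 1 - (r - 1 - (p + 1)) = p + 1 := by omega
    rw [e1] at hb
    have : TI a u p t := ⟨_, et2, by rw [hb]; simp [hau]⟩
    exact hpq (T_inj hau (Or.inl this) h)
  · have hr' : r = p + 1 := by omega
    subst hr'
    have e3 : (x a u (p + 1))⁻¹ * (x a u (p + 1) * t') = t' := by group
    rw [e3] at et2
    rcases h' with h' | h'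
    · have : TI a u p t := ⟨_, et2, by rw [TI_hd hau h']; simp [hau]⟩
      exact hpq (T_inj hau (Or.inl this) h)
    · obtain ⟨t2, h1, h2, h3⟩ := h'
      have e4 : t = (of a) ^ (p + 1) * (((of a) ^ s)⁻¹ * t2) := by
        rw [et2, h1]; group
      have hu : ∀ b, hd t2 ≠ some (a, b) := nota_of hau h3
      rcases zpow_cases a (p + 1) s hrs t2 with ⟨n, hn, e', -⟩ | ⟨n, hn, e', -⟩
      · rw [e'] at e4
        have ew : t.toWord = List.replicate n (a, true) ++ t2.toWord := by
          rw [e4, toWord_pow_mul a n t2 (hu false)]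
        rcases h with h | h
        · obtain ⟨t3, h4, h5⟩ := h
          have ew2 := TI_toWord hau h4 h5
          rw [ew] at ew2
          obtain ⟨-, e5⟩ := rep_inj (m := (a, true)) (hu true) (by simp [Ne.symm hau]) ew2
          rcases h3 with h3 | h3
          · rw [h3] at e5; simp at e5
          · unfold hd at h3
            rw [e5] at h3
            simp at h3
        · have e5 := TII_hd hau h
          unfold hd at e5
          rw [ew] at e5
          obtain ⟨n', rfl⟩ : ∃ n', n = n' + 1 := ⟨n - 1, by omega⟩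
          simp [List.replicate_succ, hau] at e5
      · rw [e'] at e4
        have ew : t.toWord = List.replicate n (a, false) ++ t2.toWord := by
          rw [e4, toWord_invpow_mul a n t2 (hu true)]
        obtain ⟨n', rfl⟩ : ∃ n', n = n' + 1 := ⟨n - 1, by omega⟩
        have e5 : hd t = some (a, false) := by
          unfold hd; rw [ew]; simp [List.replicate_succ]
        rcases h with h | h
        · rw [TI_hd hau h] at e5; simp at e5
        · rw [TII_hd hau h] at e5; simp [Ne.symm hau] at e5

lemma T_eq (hau : a ≠ u) {p q r s : ℕ} {t t' : FreeGroup X} (hpq : p ≠ q) (hrs : r ≠ s)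
    (hp : 1 ≤ p) (hr : 1 ≤ r) (h : TI a u q t ∨ TII a u q t) (h' : TI a u s t' ∨ TII a u s t')
    (e : x a u p * t = x a u r * t') : p = r ∧ q = s ∧ t = t' := by
  have h1 := T_lt hau hpq hrs hp h h' e
  have h2 := T_lt hau hrs hpq hr h' h e.symm
  have h3 : p = r := by omega
  subst h3
  have h4 : t = t' := mul_left_cancel e
  subst h4
  exact ⟨rfl, T_inj hau h h', rfl⟩

end core

end Pool.Agent.H722.FG
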