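import Mathlib
import Pool.Agent.H722.FG.Dist

set_option autoImplicit false

/-! Words in the `x l` and their distinctness. -/

namespace Pool.Agent.H722.FG

open FreeGroup

variable {X : Type*} [DecidableEq X]

/-- admissibility of `q` in front of `w` -/
def adm (q : ℕ) : List (ℕ × ℕ) → Prop
  | [] => True
  | (p, _) :: _ => p + 2 ≤ q ∨ q + 2 ≤ p

instance (q : ℕ) (w : List (ℕ × ℕ)) : Decidable (adm q w) := by
  cases w with
  | nil => exact instDecidableTrue
  | cons a t => unfold adm; infer_instance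

/-- valid index words -/
def Vd : List (ℕ × ℕ) → Prop
  | [] => True
  | (p, q) :: w => 1 ≤ p ∧ 1 ≤ q ∧ p ≠ q ∧ adm q w ∧ Vd w

/-- the value of an index word -/
def val (a u : X) : List (ℕ × ℕ) → FreeGroup X
  | [] => 1
  | (p, q) :: w => x a u p * ((x a u q)⁻¹ * val a u w)

variable {a u : X}

lemma type_of (hau : a ≠ u) (w : List (ℕ × ℕ)) : Vd w → ∀ q, 1 ≤ q → adm q w →
    (TI a u q ((x a u q)⁻¹ * val a u w) ∨ TII a u q ((x a u q)⁻¹ * val a u w)) := by
  induction w with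
  | nil =>
    intro _ q hq _
    right
    simpa [val] using T_base (a := a) (u := u) hau hq
  | cons m w ih =>
    obtain ⟨p, r⟩ := m
    intro hv q hq hadm
    obtain ⟨h1, h2, h3, h4, h5⟩ := hv
    have h6 := ih h5 r h2 h4
    exact T_step hau h3 h1 h6 hq hadm

lemma val_inj (hau : a ≠ u) (w : List (ℕ × ℕ)) : Vd w → ∀ w' : List (ℕ × ℕ), Vd w' →
    val a u w = val a u w' → w = w' := by
  induction w with
  | nil =>
    intro _ w' hw' h
    cases w' with
    | nil => rfl
    | cons m w' =>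
      exfalso
      obtain ⟨p, q⟩ := m
      obtain ⟨h1, h2, h3, h4, h5⟩ := hw'
      simp only [val] at h
      have h6 := type_of hau w' h5 q h2 h4
      have h7 : (x a u q)⁻¹ * val a u w' = (x a u p)⁻¹ := by
        exact eq_inv_of_mul_eq_one_right h.symm
      rw [h7] at h6
      exact h3 (T_inj hau (Or.inr (T_base hau h1)) h6)
  | cons m w ih =>
    obtain ⟨p, q⟩ := m
    intro hw w' hw' h
    obtain ⟨h1, h2, h3, h4, h5⟩ := hw
    cases w' with
    | nil =>
      exfalso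
      simp only [val] at h
      have h6 := type_of hau w h5 q h2 h4
      have h7 : (x a u q)⁻¹ * val a u w = (x a u p)⁻¹ := by
        exact eq_inv_of_mul_eq_one_right h
      rw [h7] at h6
      exact h3 (T_inj hau (Or.inr (T_base hau h1)) h6)
    | cons m' w' =>
      obtain ⟨p', q'⟩ := m'
      obtain ⟨g1, g2, g3, g4, g5⟩ := hw'
      simp only [val] at h
      obtain ⟨e1, e2, e3⟩ := T_eq hau h3 g3 h1 g1 (type_of hau w h5 q h2 h4)
        (type_of hau w' g5 q' g2 g4) h
      subst e1 e2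
      have e4 : val a u w = val a u w' := mul_left_cancel e3
      rw [ih h5 w' g5 e4]

/-- distinctness with one more factor -/
lemma val_inj' (hau : a ≠ u) {w w' : List (ℕ × ℕ)} (hw : Vd w) (hw' : Vd w') {q q' : ℕ}
    (hq : 1 ≤ q) (hq' : 1 ≤ q') (h1 : adm q w) (h2 : adm q' w')
    (e : (x a u q)⁻¹ * val a u w = (x a u q')⁻¹ * val a u w') : q = q' ∧ w = w' := by
  have t1 := type_of hau w hw q hq h1
  have t2 := type_of hau w' hw' q' hq' h2
  rw [← e] at t2
  have h3 := T_inj hau t1 t2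
  subst h3
  exact ⟨rfl, val_inj hau w hw w' hw' (mul_left_cancel e)⟩

/-- the valid words of length `n` with indices in `[1, L]` -/
def W (L : ℕ) : ℕ → Finset (List (ℕ × ℕ))
  | 0 => {[]}
  | n + 1 => (((Finset.Icc 1 L) ×ˢ (Finset.Icc 1 L)) ×ˢ W L n).filter
      (fun z => z.1.1 ≠ z.1.2 ∧ adm z.1.2 z.2) |>.image fun z => z.1 :: z.2

/-- admissible indices in front of a word -/
def Ad' (L : ℕ) (w : List (ℕ × ℕ)) : Finset ℕ := (Finset.Icc 1 L).filter fun q => adm q w

lemma mem_W_succ {L n : ℕ} {p q : ℕ} {w : List (ℕ × ℕ)} : (p, q) :: w ∈ W L (n + 1) ↔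
    (1 ≤ p ∧ p ≤ L) ∧ (q ∈ Ad' L w) ∧ p ≠ q ∧ w ∈ W L n := by
  simp only [W, Ad', Finset.mem_image, Finset.mem_filter, Finset.mem_product, Finset.mem_Icc,
    Prod.exists]
  constructor
  · rintro ⟨p', q', w', ⟨⟨⟨h1, h2⟩, h3⟩, h4, h5⟩, h6⟩
    simp only [List.cons.injEq, Prod.mk.injEq] at h6
    obtain ⟨⟨rfl, rfl⟩, rfl⟩ := h6
    exact ⟨h1, ⟨h2, h5⟩, h4, h3⟩
  · rintro ⟨h1, ⟨h2, h5⟩, h4, h3⟩
    exact ⟨p, q, w, ⟨⟨⟨h1, h2⟩, h3⟩, h4, h5⟩, rfl⟩

lemma W_len {L n : ℕ} {w : List (ℕ × ℕ)} (h : w ∈ W L n) : w.length = n := by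
  induction n generalizing w with
  | zero => simp only [W, Finset.mem_singleton] at h; rw [h]; rfl
  | succ n ih =>
    cases w with
    | nil => simp [W] at h
    | cons m w =>
      obtain ⟨p, q⟩ := m
      rw [mem_W_succ] at h
      simp [ih h.2.2.2]

lemma W_vd {L n : ℕ} {w : List (ℕ × ℕ)} (h : w ∈ W L n) : Vd w := by
  induction n generalizing w with
  | zero => simp only [W, Finset.mem_singleton] at h; rw [h]; trivial
  | succ n ih =>
    cases w with
    | nil => simp [W] at h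
    | cons m w =>
      obtain ⟨p, q⟩ := m
      rw [mem_W_succ] at h
      obtain ⟨h1, h2, h3, h4⟩ := h
      simp only [Ad', Finset.mem_filter, Finset.mem_Icc] at h2
      exact ⟨h1.1, h2.1.1, h3, h2.2, ih h4⟩

lemma W_card (L n : ℕ) : (W L n).card ≤ L ^ (2 * n) := by
  induction n with
  | zero => simp [W]
  | succ n ih =>
    calc (W L (n + 1)).card ≤ ((((Finset.Icc 1 L) ×ˢ (Finset.Icc 1 L)) ×ˢ W L n).filter
      (fun z => z.1.1 ≠ z.1.2 ∧ adm z.1.2 z.2)).card := Finset.card_image_le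
      _ ≤ (((Finset.Icc 1 L) ×ˢ (Finset.Icc 1 L)) ×ˢ W L n).card := Finset.card_filter_le _ _
      _ = L * L * (W L n).card := by simp [Finset.card_product]
      _ ≤ L * L * L ^ (2 * n) := Nat.mul_le_mul_left _ ih
      _ = L ^ (2 * (n + 1)) := by ring

lemma Ad'_le (L : ℕ) (w : List (ℕ × ℕ)) : (Ad' L w).card ≤ L := by
  calc (Ad' L w).card ≤ (Finset.Icc 1 L).card := Finset.card_filter_le _ _
    _ = L := by simp

lemma Ad'_nil (L : ℕ) : (Ad' L []).card = L := by
  simp [Ad', adm]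

lemma Ad'_ge (L : ℕ) (w : List (ℕ × ℕ)) : L ≤ (Ad' L w).card + 3 := by
  cases w with
  | nil => rw [Ad'_nil]; omega
  | cons m w =>
    obtain ⟨p, r⟩ := m
    have h : Finset.Icc 1 L ⊆ Ad' L ((p, r) :: w) ∪ {p - 1, p, p + 1} := by
      intro q hq
      rw [Finset.mem_union]
      by_cases h : p + 2 ≤ q ∨ q + 2 ≤ p
      · exact Or.inl (Finset.mem_filter.mpr ⟨hq, h⟩)
      · right
        simp only [Finset.mem_insert, Finset.mem_singleton]
        omega
    have h2 := Finset.card_le_card h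
    have h3 := Finset.card_union_le (Ad' L ((p, r) :: w)) {p - 1, p, p + 1}
    have h4 : ({p - 1, p, p + 1} : Finset ℕ).card ≤ 3 := Finset.card_le_three
    simp only [Nat.card_Icc, Nat.add_sub_cancel] at h2
    omega

end Pool.Agent.H722.FG
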