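import Mathlib
import Pool.Agent.H722.FG.Inj
import Pool.Agent.H581R.FF.Stubs2

set_option autoImplicit false

/-! The word and the small solution of `Z c ≈ 1` with one fixed letter only. -/

namespace Pool.Agent.H722.FG

open FreeGroup
open Pool.Agent.H581R.FF (n2 ZZ act pref wrd S_CW)

lemma sum_sq_single {I α : Type*} (S : Finset I) (φ : I → α) (e : I → ℝ)
    (hφ : Set.InjOn φ S) :
    ∑ w ∈ (∑ i ∈ S, Finsupp.single (φ i) (e i)).support,
      ((∑ i ∈ S, Finsupp.single (φ i) (e i)) w) ^ 2 = ∑ i ∈ S, e i ^ 2 := by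
  classical
  set f : α →₀ ℝ := ∑ i ∈ S, Finsupp.single (φ i) (e i) with hf
  have h1 : ∀ i ∈ S, f (φ i) = e i := by
    intro i hi
    rw [hf, Finsupp.finsetSum_apply, Finset.sum_eq_single i]
    · simp
    · intro j hj hji
      rw [Finsupp.single_apply, if_neg]
      intro h
      exact hji (hφ hj hi h)
    · intro h; exact absurd hi h
  have h2 : f.support ⊆ S.image φ := by
    intro w hw
    by_contra h
    apply Finsupp.mem_support_iff.mp hw
    rw [hf, Finsupp.finsetSum_apply]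
    apply Finset.sum_eq_zero
    intro i hi
    rw [Finsupp.single_apply, if_neg]
    intro h'
    exact h (Finset.mem_image.mpr ⟨i, hi, h'⟩)
  rw [Finset.sum_subset h2 (fun w _ hw => by rw [Finsupp.notMem_support_iff.mp hw]; simp),
    Finset.sum_image hφ]
  exact Finset.sum_congr rfl fun i hi => by rw [h1 i hi]

lemma n2_le {α : Type} {c : α →₀ ℝ} {ε : ℝ} (hε : 0 < ε)
    (h : ∑ w ∈ c.support, c w ^ 2 < ε ^ 2) : n2 c < ε := by
  unfold n2
  rw [← Real.sqrt_sq hε.le]
  exact Real.sqrt_lt_sqrt (Finset.sum_nonneg fun _ _ => sq_nonneg _) h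

lemma wrd_append {α : Type} [Group α] (u y : α) (ys : List α) :
    wrd u (ys ++ [y]) = wrd u ys * y * u := by
  induction ys with
  | nil => simp [wrd]
  | cons z ys ih => simp only [List.cons_append, wrd, ih]; group

lemma pref_append {α : Type} [Group α] (u y : α) (ys : List α) :
    pref u (ys ++ [y]) = pref u ys ++ [wrd u ys * y * u] := by
  induction ys with
  | nil => simp [wrd, pref]
  | cons z ys ih =>
    simp only [List.cons_append, pref, ih, wrd, List.map_append, List.map_cons, List.map_nil]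
    simp [mul_assoc]

/-- the list `a, a^2, …, a^L` -/
def yl {X : Type} (a : X) (L : ℕ) : List (FreeGroup X) :=
  (List.range L).map fun i => (of a) ^ (i + 1)

lemma yl_succ {X : Type} (a : X) (L : ℕ) : yl a (L + 1) = yl a L ++ [(of a) ^ (L + 1)] := by
  simp [yl, List.range_succ]

lemma wrd_yl {X : Type} (a u : X) (L : ℕ) : wrd (of u) (yl a L) = x a u L := by
  induction L with
  | zero => simp [yl, wrd, x]
  | succ L ih => rw [yl_succ, wrd_append, ih, x_succ]

lemma pref_yl {X : Type} (a u : X) (L : ℕ) :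
    pref (of u) (yl a L) = (List.range L).map fun i => x a u (i + 1) := by
  induction L with
  | zero => simp [yl, pref]
  | succ L ih => rw [yl_succ, pref_append, ih, wrd_yl, List.range_succ]; simp [x_succ]

lemma sum_list {M : Type*} [AddCommMonoid M] (f : ℕ → M) (L : ℕ) :
    ((List.range L).map fun i => f (i + 1)).sum = ∑ p ∈ Finset.Icc 1 L, f p := by
  induction L with
  | zero => simp
  | succ L ih =>
    rw [List.range_succ, List.map_append, List.sum_append, ih, Finset.sum_Icc_succ_top (by omega)]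
    simp

lemma act_single {α : Type} [Group α] (y w : α) (r : ℝ) :
    act y (Finsupp.single w r) = Finsupp.single (y * w) r := by
  simp [act]

lemma act_sum {α I : Type} [Group α] (y : α) (S : Finset I) (f : I → α →₀ ℝ) :
    act y (∑ i ∈ S, f i) = ∑ i ∈ S, act y (f i) := by
  unfold act
  exact Finsupp.mapDomain_finsetSum

lemma ZZ_eq {X : Type} (a u : X) (L : ℕ) (c : FreeGroup X →₀ ℝ) :
    ZZ (pref (of u) (yl a L)) c = ∑ p ∈ Finset.Icc 1 L, act (x a u p) c := by
  rw [pref_yl, ZZ, List.map_map]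
  exact sum_list (fun p => act (x a u p) c) L

section

variable {X : Type} (a u : X) (L : ℕ)

/-- level `n` part of the solution -/
noncomputable def C (s : ℕ → ℝ) (n : ℕ) : FreeGroup X →₀ ℝ :=
  ∑ w ∈ W L n, ∑ q ∈ Ad' L w, Finsupp.single ((x a u q)⁻¹ * val a u w) (s n)

lemma sum_W_succ {M : Type*} [AddCommMonoid M] (f : List (ℕ × ℕ) → M) (n : ℕ) :
    ∑ w ∈ W L n, ∑ q ∈ Ad' L w, ∑ p ∈ (Finset.Icc 1 L).filter (fun p => p ≠ q), f ((p, q) :: w)
      = ∑ w ∈ W L (n + 1), f w := by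
  rw [Finset.sum_congr rfl (fun w _ => Finset.sum_sigma' _ _ _), Finset.sum_sigma']
  refine Finset.sum_bij (fun z _ => (z.2.2, z.2.1) :: z.1) ?_ ?_ ?_ ?_
  · rintro ⟨w, q, p⟩ h
    simp only [Finset.mem_sigma, Finset.mem_filter, Finset.mem_Icc] at h
    rw [mem_W_succ]
    exact ⟨h.2.2.1, h.2.1, h.2.2.2, h.1⟩
  · rintro ⟨w, q, p⟩ h ⟨w', q', p'⟩ h' e
    simp only [List.cons.injEq, Prod.mk.injEq] at e
    obtain ⟨⟨rfl, rfl⟩, rfl⟩ := e
    rfl
  · intro w hw
    cases w with
    | nil => simp [W] at hw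
    | cons m w =>
      obtain ⟨p, q⟩ := m
      rw [mem_W_succ] at hw
      refine ⟨⟨w, q, p⟩, ?_, rfl⟩
      simp only [Finset.mem_sigma, Finset.mem_filter, Finset.mem_Icc]
      exact ⟨hw.2.2.2, hw.2.1, hw.1, hw.2.2.1⟩
  · rintro ⟨w, q, p⟩ h
    rfl

lemma act_C (s : ℕ → ℝ) (n : ℕ) :
    ∑ p ∈ Finset.Icc 1 L, act (x a u p) (C a u L s n) =
      ∑ w ∈ W L n, Finsupp.single (val a u w) (s n * (Ad' L w).card) +
      ∑ w ∈ W L (n + 1), Finsupp.single (val a u w) (s n) := by
  rw [← sum_W_succ, ← Finset.sum_add_distrib]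
  unfold C
  simp_rw [act_sum, act_single]
  rw [Finset.sum_comm]
  refine Finset.sum_congr rfl fun w hw => ?_
  rw [Finset.sum_comm]
  have h1 : Finsupp.single (val a u w) (s n * (Ad' L w).card) =
      ∑ q ∈ Ad' L w, Finsupp.single (val a u w) (s n) := by
    rw [Finset.sum_const, Finsupp.smul_single, nsmul_eq_mul, mul_comm]
  rw [h1, ← Finset.sum_add_distrib]
  refine Finset.sum_congr rfl fun q hq => ?_
  have hq' : q ∈ Finset.Icc 1 L := (Finset.mem_filter.mp hq).1
  rw [← Finset.sum_filter_add_sum_filter_not (Finset.Icc 1 L) (fun p => p ≠ q), add_comm]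
  congr 1
  · have h2 : (Finset.Icc 1 L).filter (fun p => ¬ p ≠ q) = {q} := by
      ext p
      simp only [Finset.mem_filter, not_not, Finset.mem_singleton]
      constructor
      · exact fun h => h.2
      · rintro rfl; exact ⟨hq', rfl⟩
    rw [h2, Finset.sum_singleton, mul_inv_cancel_left]
  
end

/-- the coefficients -/
noncomputable def sc (N L : ℕ) (n : ℕ) : ℝ := (-1) ^ n * (1 - n / N) / (L : ℝ) ^ (n + 1)

/-- the coefficients of the error -/
noncomputable def ec (N L : ℕ) (n : ℕ) (w : List (ℕ × ℕ)) : ℝ :=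
  sc N L n * (Ad' L w).card + sc N L (n - 1)

lemma ec_bound {N L n : ℕ} (hn : 1 ≤ n) (hN : n ≤ N) (hL : 1 ≤ L) (w : List (ℕ × ℕ)) :
    (ec N L n w) ^ 2 ≤ (3 / L + 1 / N) ^ 2 / (L : ℝ) ^ (2 * n) := by
  obtain ⟨m, rfl⟩ : ∃ m, n = m + 1 := ⟨n - 1, by omega⟩
  have hL' : (0 : ℝ) < L := by exact_mod_cast hL
  have hN' : (0 : ℝ) < N := by exact_mod_cast (by omega : 0 < N)
  have hd1 : ((Ad' L w).card : ℝ) ≤ L := by exact_mod_cast Ad'_le L w
  have hd2 : (L : ℝ) ≤ (Ad' L w).card + 3 := by exact_mod_cast Ad'_ge L w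
  set t : ℝ := 1 - ((m + 1 : ℕ) : ℝ) / N with ht
  have ht0 : 0 ≤ t := by
    rw [ht, sub_nonneg, div_le_one hN']
    exact_mod_cast hN
  have ht1 : t ≤ 1 := by
    rw [ht]; have : (0 : ℝ) ≤ ((m + 1 : ℕ) : ℝ) / N := by positivity
    linarith
  set v : ℝ := (L - (Ad' L w).card) / L with hv
  have hv0 : 0 ≤ v := div_nonneg (by linarith) hL'.le
  have hv1 : v ≤ 3 / L := div_le_div_of_nonneg_right (by linarith) hL'.le
  have e1 : ec N L (m + 1) w = (-1) ^ (m + 1) / (L : ℝ) ^ (m + 1) * (-(t * v + 1 / N)) := by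
    unfold ec sc
    rw [Nat.add_sub_cancel, ht, hv]
    push_cast
    field_simp
    ring
  have e2 : (ec N L (m + 1) w) ^ 2 = (t * v + 1 / N) ^ 2 / (L : ℝ) ^ (2 * (m + 1)) := by
    rw [e1, mul_pow, div_pow, neg_sq, ← pow_mul, ← pow_mul, mul_comm (m + 1) 2, pow_mul (-1 : ℝ)]
    norm_num
    ring
  rw [e2]
  apply div_le_div_of_nonneg_right _ (by positivity)
  have h1 : t * v ≤ 3 / L := by
    calc t * v ≤ 1 * v := mul_le_mul_of_nonneg_right ht1 hv0
      _ = v := one_mul v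
      _ ≤ 3 / L := hv1
  have h2 : 0 ≤ t * v := mul_nonneg ht0 hv0
  have h3 : (0 : ℝ) ≤ 1 / N := by positivity
  exact pow_le_pow_left₀ (by linarith) (by linarith) 2

lemma ec_zero {N L : ℕ} (hL : 1 ≤ L) : sc N L 0 * (Ad' L []).card = 1 := by
  have hL' : (0 : ℝ) < L := by exact_mod_cast hL
  rw [Ad'_nil]
  unfold sc
  simp
  field_simp

lemma sc_N {N L : ℕ} (hN : 1 ≤ N) : sc N L N = 0 := by
  have hN' : (0 : ℝ) < N := by exact_mod_cast hN
  unfold sc
  rw [div_self hN'.ne']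
  simp

lemma sc_sq {N L n : ℕ} (hN : n ≤ N) (hN0 : 1 ≤ N) :
    (sc N L n) ^ 2 ≤ 1 / (L : ℝ) ^ (2 * n + 2) := by
  have hN' : (0 : ℝ) < N := by exact_mod_cast hN0
  unfold sc
  set t : ℝ := 1 - (n : ℝ) / N with ht
  have ht0 : 0 ≤ t := by
    rw [ht, sub_nonneg, div_le_one hN']
    exact_mod_cast hN
  have ht1 : t ≤ 1 := by
    rw [ht]; have : (0 : ℝ) ≤ (n : ℝ) / N := by positivity
    linarith
  rw [div_pow, mul_pow, ← pow_mul, ← pow_mul, mul_comm n 2, pow_mul (-1 : ℝ)]
  have e : (n + 1) * 2 = 2 * n + 2 := by ring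
  rw [e]
  norm_num
  rw [← one_div]
  apply div_le_div_of_nonneg_right _ (by positivity)
  exact pow_le_one₀ ht0 ht1

section

variable {X : Type} (a u : X) (N L : ℕ)

/-- the solution -/
noncomputable def cc : FreeGroup X →₀ ℝ := ∑ n ∈ Finset.range N, C a u L (sc N L) n

lemma ZZ_cc (hN : 1 ≤ N) (hL : 1 ≤ L) :
    ZZ (pref (of u) (yl a L)) (cc a u N L) - Finsupp.single 1 1 =
      ∑ n ∈ Finset.Icc 1 N, ∑ w ∈ W L n, Finsupp.single (val a u w) (ec N L n w) := by
  rw [ZZ_eq]
  unfold cc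
  simp_rw [act_sum]
  rw [Finset.sum_comm]
  simp_rw [act_C]
  rw [Finset.sum_add_distrib]
  have h1 : ∑ n ∈ Finset.range N, ∑ w ∈ W L n,
      Finsupp.single (val a u w) (sc N L n * (Ad' L w).card) =
      Finsupp.single 1 1 + ∑ n ∈ Finset.Icc 1 N, ∑ w ∈ W L n,
      Finsupp.single (val a u w) (sc N L n * (Ad' L w).card) := by
    have h2 : ∑ n ∈ Finset.range (N + 1), ∑ w ∈ W L n,
      Finsupp.single (val a u w) (sc N L n * (Ad' L w).card) = ∑ n ∈ Finset.range N, ∑ w ∈ W L n,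
      Finsupp.single (val a u w) (sc N L n * (Ad' L w).card) := by
      rw [Finset.sum_range_succ, sc_N hN]
      simp
    rw [← h2, Finset.sum_range_succ', add_comm]
    congr 1
    · simp only [W, Finset.sum_singleton, val]
      rw [ec_zero hL]
    · rw [Finset.range_eq_Ico, Finset.sum_Ico_add' (fun n => ∑ w ∈ W L n,
      Finsupp.single (val a u w) (sc N L n * (Ad' L w).card)) 0 N 1]
      rfl
  have h3 : ∑ n ∈ Finset.range N, ∑ w ∈ W L (n + 1), Finsupp.single (val a u w) (sc N L n) =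
      ∑ n ∈ Finset.Icc 1 N, ∑ w ∈ W L n, Finsupp.single (val a u w) (sc N L (n - 1)) := by
    rw [Finset.range_eq_Ico]
    have := Finset.sum_Ico_add' (fun n => ∑ w ∈ W L n,
      Finsupp.single (val a u w) (sc N L (n - 1))) 0 N 1
    simp only [Nat.add_sub_cancel] at this
    rw [this]
    rfl
  rw [h1, h3, add_assoc, add_sub_cancel_left, ← Finset.sum_add_distrib]
  refine Finset.sum_congr rfl fun n _ => ?_
  rw [← Finset.sum_add_distrib]
  refine Finset.sum_congr rfl fun w _ => ?_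
  rw [← Finsupp.single_add]
  rfl

variable [DecidableEq X]

lemma err_le (hau : a ≠ u) (hN : 1 ≤ N) (hL : 1 ≤ L) :
    ∑ w ∈ (ZZ (pref (of u) (yl a L)) (cc a u N L) - Finsupp.single 1 1).support,
      ((ZZ (pref (of u) (yl a L)) (cc a u N L) - Finsupp.single 1 1 : FreeGroup X →₀ ℝ) w) ^ 2 ≤
      N * (3 / L + 1 / N) ^ 2 := by
  rw [ZZ_cc a u N L hN hL, Finset.sum_sigma', sum_sq_single]
  · rw [Finset.sum_sigma]
    calc ∑ n ∈ Finset.Icc 1 N, ∑ w ∈ W L n, ec N L n w ^ 2
        ≤ ∑ n ∈ Finset.Icc 1 N, ((3 / L + 1 / N) ^ 2 : ℝ) := by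
          refine Finset.sum_le_sum fun n hn => ?_
          rw [Finset.mem_Icc] at hn
          have hL' : (0 : ℝ) < L := by exact_mod_cast hL
          calc ∑ w ∈ W L n, ec N L n w ^ 2
              ≤ ∑ w ∈ W L n, (3 / L + 1 / N : ℝ) ^ 2 / (L : ℝ) ^ (2 * n) :=
                Finset.sum_le_sum fun w _ => ec_bound hn.1 hn.2 hL w
            _ = (W L n).card * ((3 / L + 1 / N : ℝ) ^ 2 / (L : ℝ) ^ (2 * n)) := by
                rw [Finset.sum_const, nsmul_eq_mul]
            _ ≤ (L : ℝ) ^ (2 * n) * ((3 / L + 1 / N : ℝ) ^ 2 / (L : ℝ) ^ (2 * n)) := by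
                apply mul_le_mul_of_nonneg_right _ (by positivity)
                exact_mod_cast W_card L n
            _ = (3 / L + 1 / N : ℝ) ^ 2 := by field_simp
      _ = N * (3 / L + 1 / N) ^ 2 := by
          rw [Finset.sum_const, nsmul_eq_mul, Nat.card_Icc, Nat.add_sub_cancel]
  · rintro ⟨n, w⟩ h ⟨n', w'⟩ h' e
    simp only [Finset.coe_sigma, Set.mem_sigma_iff, Finset.mem_coe] at h h'
    have h2 := val_inj hau w (W_vd h.2) w' (W_vd h'.2) e
    subst h2
    have h3 := W_len h.2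
    have h4 := W_len h'.2
    have h5 : n = n' := by omega
    subst h5
    rfl

lemma cc_le (hau : a ≠ u) (hN : 1 ≤ N) (hL : 1 ≤ L) :
    ∑ w ∈ (cc a u N L).support, (cc a u N L w) ^ 2 ≤ N / L := by
  have h0 : cc a u N L = ∑ z ∈ (Finset.range N).sigma fun n => (W L n).sigma fun w => Ad' L w,
      Finsupp.single ((x a u z.2.2)⁻¹ * val a u z.2.1) (sc N L z.1) := by
    unfold cc C
    rw [Finset.sum_sigma]
    refine Finset.sum_congr rfl fun n _ => ?_
    rw [Finset.sum_sigma]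
  rw [h0, sum_sq_single]
  · rw [Finset.sum_sigma]
    have hL' : (0 : ℝ) < L := by exact_mod_cast hL
    calc ∑ n ∈ Finset.range N, ∑ z ∈ (W L n).sigma fun w => Ad' L w, sc N L n ^ 2
        ≤ ∑ n ∈ Finset.range N, (1 / L : ℝ) := by
          refine Finset.sum_le_sum fun n hn => ?_
          rw [Finset.mem_range] at hn
          calc ∑ z ∈ (W L n).sigma fun w => Ad' L w, sc N L n ^ 2
              = ((W L n).sigma fun w => Ad' L w).card * sc N L n ^ 2 := by
                rw [Finset.sum_const, nsmul_eq_mul]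
            _ ≤ ((L : ℝ) ^ (2 * n) * L) * (1 / (L : ℝ) ^ (2 * n + 2)) := by
                apply mul_le_mul _ (sc_sq hn.le hN) (by positivity) (by positivity)
                have h1 : ((W L n).sigma fun w => Ad' L w).card ≤ L ^ (2 * n) * L := by
                  rw [Finset.card_sigma]
                  calc ∑ w ∈ W L n, (Ad' L w).card ≤ ∑ w ∈ W L n, L :=
                        Finset.sum_le_sum fun w _ => Ad'_le L w
                    _ = (W L n).card * L := by rw [Finset.sum_const, smul_eq_mul]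
                    _ ≤ L ^ (2 * n) * L := Nat.mul_le_mul_right _ (W_card L n)
                exact_mod_cast h1
            _ = 1 / L := by
                rw [pow_add]
                field_simp
      _ = N / L := by
          rw [Finset.sum_const, nsmul_eq_mul, Finset.card_range]
          ring
  · rintro ⟨n, w, q⟩ h ⟨n', w', q'⟩ h' e
    simp only [Finset.coe_sigma, Set.mem_sigma_iff, Finset.mem_coe] at h h'
    obtain ⟨_, h1, h2⟩ := h
    obtain ⟨_, h1', h2'⟩ := h'
    simp only [Ad', Finset.mem_filter, Finset.mem_Icc] at h2 h2'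
    obtain ⟨e1, e2⟩ := val_inj' hau (W_vd h1) (W_vd h1') h2.1.1 h2'.1.1 h2.2 h2'.2 e
    subst e1 e2
    have h3 := W_len h1
    have h4 := W_len h1'
    have h5 : n = n' := by omega
    subst h5
    rfl

end

theorem t_CW : S_CW := by
  classical
  intro ι a u hau ε hε
  obtain ⟨N, hN⟩ := exists_nat_gt (16 / ε ^ 2)
  have hε2 : 0 < ε ^ 2 := by positivity
  have hN0 : (0 : ℝ) < N := lt_trans (by positivity) hN
  have hN1 : 1 ≤ N := by exact_mod_cast hN0
  have hN1' : (1 : ℝ) ≤ N := by exact_mod_cast hN1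
  have hlt : 16 / (N : ℝ) < ε ^ 2 := by
    rw [div_lt_iff₀ hN0, mul_comm]
    rwa [div_lt_iff₀ hε2] at hN
  obtain ⟨L, hLN⟩ : ∃ L : ℕ, L = N ^ 2 := ⟨_, rfl⟩
  have hL : 1 ≤ L := by rw [hLN]; exact Nat.one_le_pow _ _ hN1
  have hLN' : (L : ℝ) = (N : ℝ) ^ 2 := by rw [hLN]; push_cast; rfl
  refine ⟨yl a L, ?_, cc a u N L, ?_, ?_⟩
  · intro y hy
    simp only [yl, List.mem_map, List.mem_range] at hy
    obtain ⟨i, _, rfl⟩ := hy
    exact Subgroup.pow_mem _ (Subgroup.subset_closure (Set.mem_singleton _)) _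
  · apply n2_le hε
    refine lt_of_le_of_lt (cc_le a u N L hau hN1 hL) (lt_of_le_of_lt ?_ hlt)
    rw [hLN']
    have h1 : (N : ℝ) / (N : ℝ) ^ 2 = 1 / N := by field_simp
    rw [h1]
    exact div_le_div_of_nonneg_right (by norm_num) hN0.le
  · apply n2_le hε
    refine lt_of_le_of_lt (err_le a u N L hau hN1 hL) (lt_of_le_of_lt ?_ hlt)
    have h1 : 3 / (L : ℝ) ≤ 3 / N := by
      rw [hLN']
      apply div_le_div_of_nonneg_left (by norm_num) hN0
      nlinarith
    have h2 : (3 / (L : ℝ) + 1 / N) ≤ 4 / N := by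
      have h3 : (4 : ℝ) / N = 3 / N + 1 / N := by ring
      linarith
    have h3 : (N : ℝ) * (3 / L + 1 / N) ^ 2 ≤ N * (4 / N) ^ 2 :=
      mul_le_mul_of_nonneg_left (pow_le_pow_left₀ (by positivity) h2 2) hN0.le
    have h4 : (N : ℝ) * (4 / N) ^ 2 = 16 / N := by field_simp; norm_num
    linarith

end Pool.Agent.H722.FG
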